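import Pool.Agent.H91.TC.Basic

/-! Closing lemma for diffeomorphisms with a torus symmetry (MP_43af95_an), row ONE: the closing of
a good pair by a translation and one bump. -/

open Set Function Topology Metric Filter
open scoped Manifold

namespace Pool.Agent.H12.TSC

open Pool.Agent.H88.CL Pool.Agent.H88.CM Pool.Agent.H91.TC

/-- iterates of the translated map -/
theorem iter_act {n k : ℕ} {M : Type} [TopologicalSpace M] [ChartedSpace (E n) M]
    {a : E k → M → M} (hA : Act n k a) {f : M → M} (hf : ∀ v y, f (a v y) = a v (f y))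
    (w : E k) (y : M) (l : ℕ) : (a w ∘ f)^[l] y = a ((l : ℝ) • w) (f^[l] y) := by
  induction l with
  | zero => simp [hA.zero]
  | succ l ih =>
    rw [iterate_succ_apply', ih, iterate_succ_apply']
    simp only [comp_apply]
    rw [hf, ← hA.add]
    congr 1
    push_cast
    rw [add_smul, one_smul, add_comm]

/-- the sizes of a bump can be increased -/
theorem bp_mono {n : ℕ} {K : Set (E n)} {σ β γ ε : ℝ} {U : E n → E n} (h : Bp n K σ β γ U)
    (h1 : σ ≤ ε) (h2 : β ≤ ε) (h3 : γ ≤ ε) : Bp n K ε ε ε U where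
  c2 := h.c2
  sup := h.sup
  s := fun v => (h.s v).trans h1
  b := fun v => (h.b v).trans h2
  g := fun v w => (h.g v w).trans (mul_le_mul_of_nonneg_right h3 (norm_nonneg _))

theorem pf_ONE (hO : T_OBCM) : T_ONE := by
  intro n d k M _ _ _ _ a x κ e r hA hT ρ0 hρ0 hball ε hε
  obtain ⟨C, hC1, hC⟩ := hO n
  set A : ℝ := max 1 ‖(e : E n →L[ℝ] E d × E k)‖ with hAdef
  set B : ℝ := max 1 ‖(e.symm : E d × E k →L[ℝ] E n)‖ with hBdef
  have hA1 : 1 ≤ A := le_max_left _ _
  have hB1 : 1 ≤ B := le_max_left _ _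
  have hA0 : 0 < A := by linarith
  have hB0 : 0 < B := by linarith
  have hC0 : 0 < C := by linarith
  have heA : ∀ z : E n, ‖e z‖ ≤ A * ‖z‖ := fun z =>
    ((e : E n →L[ℝ] E d × E k).le_opNorm z).trans
      (mul_le_mul_of_nonneg_right (le_max_right _ _) (norm_nonneg _))
  have heB : ∀ z : E d × E k, ‖e.symm z‖ ≤ B * ‖z‖ := fun z =>
    ((e.symm : E d × E k →L[ℝ] E n).le_opNorm z).trans
      (mul_le_mul_of_nonneg_right (le_max_right _ _) (norm_nonneg _))
  set K : ℝ := max 1 (C * B * A ^ 2 / ε) with hKdef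
  have hK1 : 1 ≤ K := le_max_left _ _
  have hK0 : 0 < K := by linarith
  have hKK : C * B * A ^ 2 ≤ ε * K ^ 2 := by
    have h1 : C * B * A ^ 2 / ε ≤ K := le_max_right _ _
    rw [div_le_iff₀ hε] at h1
    nlinarith [mul_nonneg hε.le (mul_nonneg hK0.le (sub_nonneg.2 hK1))]
  have hr := hT.pos
  set s : ℝ := min 1 (min (ρ0 / 2) (r / 2)) with hsdef
  have hs0 : 0 < s := by
    refine lt_min one_pos (lt_min ?_ ?_) <;> linarith
  have hs1 : s ≤ 1 := min_le_left _ _
  have hs2 : s ≤ ρ0 / 2 := (min_le_right _ _).trans (min_le_left _ _)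
  have hs3 : s ≤ r / 2 := (min_le_right _ _).trans (min_le_right _ _)
  set ε1 : ℝ := min (min ((s / K) ^ 2 / 2) (ρ0 / (2 * B))) (min (r / 2) (ε / (2 * B))) with hε1def
  have hε10 : 0 < ε1 := by
    refine lt_min (lt_min ?_ ?_) (lt_min ?_ ?_) <;> positivity
  have e1 : ε1 ≤ (s / K) ^ 2 / 2 := (min_le_left _ _).trans (min_le_left _ _)
  have e2 : B * ε1 ≤ ρ0 / 2 := by
    have h1 : ε1 ≤ ρ0 / (2 * B) := (min_le_left _ _).trans (min_le_right _ _)
    rw [le_div_iff₀ (by positivity)] at h1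
    linarith
  have e3 : ε1 ≤ r / 2 := (min_le_right _ _).trans (min_le_left _ _)
  have e4 : 2 * B * ε1 ≤ ε := by
    have h1 : ε1 ≤ ε / (2 * B) := (min_le_right _ _).trans (min_le_right _ _)
    rw [le_div_iff₀ (by positivity)] at h1
    linarith
  refine ⟨K, ε1, hK0, hε10, ?_⟩
  intro f hf m u u' w hm hu hu' hne hret hex
  set δ : ℝ := ‖u - u'‖ with hδdef
  have hδ0 : 0 < δ := norm_pos_iff.2 (sub_ne_zero.2 hne)
  have hδ2 : δ ≤ 2 * ε1 := by
    have := norm_sub_le u u'
    linarith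
  have hsq : K * √δ ≤ s := by
    have h1 : √δ ≤ s / K := by
      rw [Real.sqrt_le_left (by positivity)]
      linarith
    rw [le_div_iff₀ hK0] at h1
    linarith
  have hsδ : 0 < √δ := Real.sqrt_pos.2 hδ0
  have hss : √δ * √δ = δ := Real.mul_self_sqrt hδ0.le
  -- the coordinates of the points of the slice
  have hsg : ∀ u1 : E d, ‖u1‖ ≤ r → sg κ e u1 ∈ κ.source ∧ κ (sg κ e u1) = e.symm (u1, 0) := by
    intro u1 h1
    have h2 := hT.tgt u1 0 h1 (by rw [norm_zero]; exact hr.le)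
    exact ⟨κ.map_target h2, κ.right_inv h2⟩
  have hur : ‖u‖ ≤ r := by linarith
  have hur' : ‖u'‖ ≤ r := by linarith
  obtain ⟨hy, hκy⟩ := hsg u hur
  obtain ⟨hq, hκq⟩ := hsg u' hur'
  have hκx : κ x = 0 := by
    have h1 := hT.org
    exact (map_eq_zero_iff e e.injective).1 h1
  -- the radius
  set R : ℝ := K * √δ / A with hRdef
  have hR0 : 0 < R := by positivity
  have hRs : R ≤ s := by
    rw [hRdef, div_le_iff₀ hA0]
    nlinarith
  have hAR : A * R = K * √δ := by
    rw [hRdef]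
    field_simp
  have hm' : (a w ∘ f)^[m] (sg κ e u) = sg κ e u' := by
    rw [iter_act hA hf, hret, ← hA.add, add_neg_cancel, hA.zero]
  have hσ : ‖κ (sg κ e u') - κ (sg κ e u)‖ ≤ B * δ := by
    rw [hκq, hκy, ← map_sub]
    refine (heB _).trans (mul_le_mul_of_nonneg_left ?_ hB0.le)
    rw [Prod.mk_sub_mk, sub_zero, Prod.norm_mk, norm_zero, max_eq_left (norm_nonneg _), hδdef,
      norm_sub_rev]
  obtain ⟨U, hU, hUm⟩ := hC M (a w ∘ f) κ (κ x) ρ0 (sg κ e u) (sg κ e u') m R hball hy hq (by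
      rw [hκx, sub_zero, hκq]
      refine (heB _).trans (le_trans (mul_le_mul_of_nonneg_left ?_ hB0.le) e2)
      rw [Prod.norm_mk, norm_zero, max_eq_left (norm_nonneg _)]
      exact hu') hm hm' hR0 (hRs.trans hs2) (by
      intro l hl1 hlm hsrc
      by_contra hlt
      push Not at hlt
      set p := e (κ ((a w ∘ f)^[l] (sg κ e u))) with hp
      have h1 : ‖p - (u', 0)‖ ≤ K * √δ := by
        have h2 : p - (u', 0) = e (κ ((a w ∘ f)^[l] (sg κ e u)) - κ (sg κ e u')) := by
          rw [map_sub, hκq, e.apply_symm_apply]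
        rw [h2]
        refine (heA _).trans ?_
        rw [← hAR]
        exact mul_le_mul_of_nonneg_left hlt hA0.le
      have h3 : ‖p.1 - u'‖ ≤ K * √δ := by
        refine le_trans ?_ h1
        exact norm_fst_le (p - (u', 0))
      have h4 : ‖p.2‖ ≤ K * √δ := by
        refine le_trans ?_ h1
        have := norm_snd_le (p - (u', 0))
        rwa [Prod.snd_sub, sub_zero] at this
      have h5 : ‖p.1‖ ≤ r := by
        have h6 : ‖p.1‖ ≤ ‖p.1 - u'‖ + ‖u'‖ := by
          have := norm_add_le (p.1 - u') u'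
          rwa [sub_add_cancel] at this
        linarith
      have h6 : ‖p.2‖ ≤ r := by linarith
      have h7 : (a w ∘ f)^[l] (sg κ e u) = a p.2 (sg κ e p.1) := by
        rw [← hT.act p.1 p.2 h5 h6, Prod.mk.eta, hp, e.symm_apply_apply, κ.left_inv hsrc]
      refine hex l (by omega) hlm p.1 p.2 h5 h3 h4 ?_
      rw [iter_act hA hf] at h7
      rw [sub_eq_neg_add, hA.add, ← h7, ← hA.add, neg_add_cancel, hA.zero])
  refine ⟨U, bp_mono hU ?_ ?_ ?_, hUm⟩
  · refine hσ.trans ?_
    nlinarith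
  all_goals
    have hR2 : R ^ 2 * A ^ 2 = K ^ 2 * δ := by
      have : R ^ 2 * A ^ 2 = (A * R) * (A * R) := by ring
      rw [this, hAR]
      linear_combination K ^ 2 * hss
    have hγ : C * ‖κ (sg κ e u') - κ (sg κ e u)‖ ≤ ε * R ^ 2 := by
      have h1 : C * ‖κ (sg κ e u') - κ (sg κ e u)‖ ≤ C * (B * δ) :=
        mul_le_mul_of_nonneg_left hσ hC0.le
      have h2 : C * (B * δ) * A ^ 2 ≤ ε * R ^ 2 * A ^ 2 := by
        calc C * (B * δ) * A ^ 2 = (C * B * A ^ 2) * δ := by ring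
          _ ≤ (ε * K ^ 2) * δ := mul_le_mul_of_nonneg_right hKK hδ0.le
          _ = ε * (R ^ 2 * A ^ 2) := by rw [hR2]; ring
          _ = _ := by ring
      exact h1.trans (le_of_mul_le_mul_right h2 (by positivity))
  · rw [div_le_iff₀ hR0]
    refine hγ.trans ?_
    have : R ^ 2 ≤ R := by nlinarith
    exact mul_le_mul_of_nonneg_left this hε.le
  · rw [div_le_iff₀ (by positivity)]
    exact hγ

end Pool.Agent.H12.TSC
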